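import Mathlib

/-!
# MP_fb12c6_gt : separating two cofinality invariants of balleans

The ballean on `ℕ` whose entourages are the relations with uniformly finite sections satisfies
`cof_⋆ = 1` and `cof_* > ℵ₀`.
-/

namespace Pool.Agent.Results.MP_fb12c6_gt.Separation

open Set Cardinal

/-- A ballean structure on `X` : a family of entourages, each containing the diagonal, such that
every `E ∘ F⁻¹` is contained in an entourage, with union `X × X`. -/
structure IsBallean {X : Type} (𝓔 : Set (Set (X × X))) : Prop where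
  diag : ∀ E ∈ 𝓔, ∀ x, (x, x) ∈ E
  comp : ∀ E ∈ 𝓔, ∀ F ∈ 𝓔, ∃ D ∈ 𝓔, {p : X × X | ∃ y, (p.1, y) ∈ E ∧ (p.2, y) ∈ F} ⊆ D
  all : ⋃₀ 𝓔 = Set.univ

variable {X : Type}

/-- `E[x] = {y | (x, y) ∈ E}` -/
def ball (E : Set (X × X)) (x : X) : Set X := {y | (x, y) ∈ E}

/-- `E[A] = ⋃_{a ∈ A} E[a]` -/
def nbhd (E : Set (X × X)) (A : Set X) : Set X := ⋃ a ∈ A, ball E a

/-- `B` is bounded if it is contained in some ball. -/
def Bounded (𝓔 : Set (Set (X × X))) (B : Set X) : Prop := ∃ E ∈ 𝓔, ∃ x, B ⊆ ball E x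

/-- The entourages of the square `X × X`. -/
def square (𝓔 : Set (Set (X × X))) : Set (Set ((X × X) × (X × X))) :=
  {E | ∃ E₁ ∈ 𝓔, ∃ E₂ ∈ 𝓔, E = {p | (p.1.1, p.2.1) ∈ E₁ ∧ (p.1.2, p.2.2) ∈ E₂}}

/-- `cof_*(𝓔)` : the least cardinality of `C ⊆ 𝓔` such that for each `E ∈ 𝓔` some `c ∈ C` makes
`E \ c` bounded in `X × X`. -/
noncomputable def cofAst (𝓔 : Set (Set (X × X))) : Cardinal :=
  sInf {κ : Cardinal | ∃ C ⊆ 𝓔, #C = κ ∧ ∀ E ∈ 𝓔, ∃ c ∈ C, Bounded (square 𝓔) (E \ c)}

/-- `cof_*(𝓔[A])` : the least cardinality of `C ⊆ 𝓔` such that for each `E ∈ 𝓔` some `c ∈ C`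
makes `E[A] \ c[A]` bounded in `X`. -/
noncomputable def cofAstAt (𝓔 : Set (Set (X × X))) (A : Set X) : Cardinal :=
  sInf {κ : Cardinal | ∃ C ⊆ 𝓔, #C = κ ∧ ∀ E ∈ 𝓔, ∃ c ∈ C, Bounded 𝓔 (nbhd E A \ nbhd c A)}

/-- `cof_⋆(𝓔) = sup_A cof_*(𝓔[A])`. -/
noncomputable def cofStar (𝓔 : Set (Set (X × X))) : Cardinal := ⨆ A : Set X, cofAstAt 𝓔 A

/-- The entourages of the example: relations on `ℕ` containing the diagonal, all of whose
horizontal and vertical sections have at most `k` elements for some `k`. -/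
def fin𝓔 : Set (Set (ℕ × ℕ)) :=
  {E | (∀ x, (x, x) ∈ E) ∧ ∃ k : ℕ, ∀ x, {y | (x, y) ∈ E}.encard ≤ k ∧ {y | (y, x) ∈ E}.encard ≤ k}

theorem pair_le {α : Type} {x y : α} : ({x, y} : Set α).encard ≤ 2 := by
  refine (encard_insert_le _ _).trans ?_
  rw [encard_singleton]
  norm_num

theorem diag_mem : {p : ℕ × ℕ | p.1 = p.2} ∈ fin𝓔 := by
  refine ⟨fun x => rfl, 1, fun x => ⟨?_, ?_⟩⟩
  · have : {y | (x, y) ∈ {p : ℕ × ℕ | p.1 = p.2}} = {x} := by
      ext y; simp [eq_comm]
    rw [this]; simp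
  · have : {y | (y, x) ∈ {p : ℕ × ℕ | p.1 = p.2}} = {x} := by
      ext y; simp
    rw [this]; simp

theorem encard_biUnion_le {α β : Type} (s : Set α) (f : α → Set β) (k l : ℕ)
    (hs : s.encard ≤ k) (hf : ∀ a ∈ s, (f a).encard ≤ l) : (⋃ a ∈ s, f a).encard ≤ (k * l : ℕ) := by
  have hsf : s.Finite := finite_of_encard_le_coe hs
  have hff : ∀ a ∈ s, (f a).Finite := fun a ha => finite_of_encard_le_coe (hf a ha)
  classical
  let S := hsf.toFinset
  have h1 : S.card ≤ k := by
    have := hsf.encard_eq_coe_toFinset_card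
    rw [this] at hs
    exact_mod_cast hs
  have h2 : ∀ a : S, (f a).Finite := fun a => hff a (hsf.mem_toFinset.1 a.2)
  let g : α → Finset β := fun a => if h : (f a).Finite then h.toFinset else ∅
  have h3 : (⋃ a ∈ s, f a) = ((S.biUnion g : Finset β) : Set β) := by
    ext b
    simp only [mem_iUnion, Finset.coe_biUnion, Finset.mem_coe, exists_prop]
    constructor
    · rintro ⟨a, ha, hb⟩
      refine ⟨a, hsf.mem_toFinset.2 ha, ?_⟩
      simp only [g, dif_pos (hff a ha)]
      exact (hff a ha).mem_toFinset.2 hb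
    · rintro ⟨a, ha, hb⟩
      have ha' := hsf.mem_toFinset.1 ha
      refine ⟨a, ha', ?_⟩
      simp only [g, dif_pos (hff a ha')] at hb
      exact (hff a ha').mem_toFinset.1 hb
  rw [h3, encard_coe_eq_coe_finsetCard]
  have h4 : (S.biUnion g).card ≤ S.card * l := by
    apply Finset.card_biUnion_le_card_mul
    intro a ha
    have ha' := hsf.mem_toFinset.1 ha
    have := hf a ha'
    rw [(hff a ha').encard_eq_coe_toFinset_card] at this
    simp only [g, dif_pos (hff a ha')]
    exact_mod_cast this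
  exact_mod_cast h4.trans (Nat.mul_le_mul_right l h1)

theorem isBallean_fin : IsBallean fin𝓔 where
  diag E hE := hE.1
  comp := by
    rintro E ⟨hE, k, hk⟩ F ⟨hF, l, hl⟩
    refine ⟨_, ⟨?_, k * l + l * k, ?_⟩, Subset.rfl⟩
    · intro x
      exact ⟨x, hE x, hF x⟩
    · intro x
      constructor
      · have h1 : {y | (x, y) ∈ {p : ℕ × ℕ | ∃ y, (p.1, y) ∈ E ∧ (p.2, y) ∈ F}} =
          ⋃ z ∈ {z | (x, z) ∈ E}, {y | (y, z) ∈ F} := by
          ext y; simp
        rw [h1]
        refine (encard_biUnion_le _ _ k l (hk x).1 (fun z _ => (hl z).2)).trans ?_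
        exact_mod_cast Nat.le_add_right _ _
      · have h1 : {y | (y, x) ∈ {p : ℕ × ℕ | ∃ y, (p.1, y) ∈ E ∧ (p.2, y) ∈ F}} =
          ⋃ z ∈ {z | (x, z) ∈ F}, {y | (y, z) ∈ E} := by
          ext y; simp [and_comm]
        rw [h1]
        refine (encard_biUnion_le _ _ l k (hl x).1 (fun z _ => (hk z).2)).trans ?_
        exact_mod_cast Nat.le_add_left _ _
  all := by
    rw [Set.eq_univ_iff_forall]
    rintro ⟨a, b⟩
    refine ⟨{p | p.1 = p.2 ∨ (p.1 = a ∧ p.2 = b)}, ⟨fun x => Or.inl rfl, 2, ?_⟩, Or.inr ⟨rfl, rfl⟩⟩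
    intro x
    constructor
    · refine (encard_le_encard (t := {x, b}) ?_).trans pair_le
      rintro y (h | ⟨-, h⟩)
      · left; exact h.symm
      · right; exact h
    · refine (encard_le_encard (t := {x, a}) ?_).trans pair_le
      rintro y (h | ⟨h, -⟩)
      · left; exact h
      · right; exact h

theorem bounded_iff_finite (B : Set ℕ) : Bounded fin𝓔 B ↔ B.Finite := by
  classical
  constructor
  · rintro ⟨E, ⟨-, k, hk⟩, x, hx⟩
    exact (finite_of_encard_le_coe (hk x).1).subset hx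
  · intro hB
    refine ⟨{p | p.1 = p.2 ∨ (p.1 = 0 ∧ p.2 ∈ B)}, ⟨fun x => Or.inl rfl, B.ncard + 1, ?_⟩, 0, ?_⟩
    · intro x
      constructor
      · refine (encard_le_encard (t := insert x B) ?_).trans ?_
        · rintro y (h | ⟨-, h⟩)
          · left; exact h.symm
          · right; exact h
        · refine (encard_insert_le _ _).trans ?_
          rw [← hB.cast_ncard_eq]
          norm_cast
      · refine (encard_le_encard (t := insert x {0} ∩ insert x (if x ∈ B then {0} else ∅)) ?_).trans ?_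
        · rintro y (h | ⟨h, h'⟩)
          · have h : y = x := h
            subst h
            exact ⟨Or.inl rfl, Or.inl rfl⟩
          · have h' : x ∈ B := h'
            have h : y = 0 := h
            subst h
            exact ⟨Or.inr rfl, Or.inr (by rw [if_pos h']; rfl)⟩
        · by_cases hx : x ∈ B
          · refine (encard_le_encard inter_subset_left).trans (pair_le.trans ?_)
            have : 1 ≤ B.ncard := by
              rw [Nat.one_le_iff_ne_zero, Ne, ncard_eq_zero hB]
              rintro rfl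
              exact hx
            have h2 : 2 ≤ B.ncard + 1 := by omega
            exact_mod_cast h2
          · rw [if_neg hx]
            refine (encard_le_encard inter_subset_right).trans ?_
            rw [insert_empty_eq, encard_singleton]
            exact_mod_cast Nat.le_add_left 1 B.ncard
    · intro y hy
      exact Or.inr ⟨rfl, hy⟩

theorem bounded_square_finite (B : Set (ℕ × ℕ)) (hB : Bounded (square fin𝓔) B) : B.Finite := by
  obtain ⟨_, ⟨E₁, ⟨-, k, hk⟩, E₂, ⟨-, l, hl⟩, rfl⟩, ⟨a, b⟩, hx⟩ := hB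
  refine ((finite_of_encard_le_coe (hk a).1).prod (finite_of_encard_le_coe (hl b).1)).subset ?_
  intro y hy
  exact hx hy

theorem cofAstAt_fin (A : Set ℕ) : cofAstAt fin𝓔 A = 1 := by
  apply le_antisymm
  · apply csInf_le'
    -- find a single entourage
    obtain ⟨c, hc, hcA⟩ : ∃ c ∈ fin𝓔, ∀ E ∈ fin𝓔, Bounded fin𝓔 (nbhd E A \ nbhd c A) := by
      by_cases hA : A.Finite
      · refine ⟨_, diag_mem, ?_⟩
        rintro E ⟨-, k, hk⟩
        rw [bounded_iff_finite]
        refine Finite.subset (hA.biUnion fun a _ => finite_of_encard_le_coe (hk a).1) ?_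
        intro y hy
        exact hy.1
      · have hA : A.Infinite := hA
        have : Infinite A := hA.to_subtype
        let j : ℕ ↪ A := Infinite.natEmbedding A
        refine ⟨{p | p.1 = p.2 ∨ p.1 = (j p.2 : ℕ)}, ⟨fun x => Or.inl rfl, 2, ?_⟩, ?_⟩
        · intro x
          constructor
          · by_cases hx : ∃ y, (j y : ℕ) = x
            · obtain ⟨y, rfl⟩ := hx
              refine (encard_le_encard (t := {(j y : ℕ), y}) ?_).trans pair_le
              rintro z (h | h)
              · left; exact h.symm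
              · right
                have : (j y : ℕ) = (j z : ℕ) := h
                exact (j.injective (Subtype.ext this)).symm
            · refine (encard_le_encard (t := {x, x}) ?_).trans pair_le
              rintro z (h | h)
              · left; exact h.symm
              · exact absurd ⟨z, h.symm⟩ hx
          · refine (encard_le_encard (t := {x, (j x : ℕ)}) ?_).trans pair_le
            rintro z (h | h)
            · left; exact h
            · right; exact h
        · intro E hE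
          rw [bounded_iff_finite]
          convert Set.finite_empty
          rw [sdiff_eq_empty]
          intro y hy
          exact mem_biUnion (j y).2 (Or.inr rfl)
    refine ⟨{c}, singleton_subset_iff.2 hc, mk_singleton c, ?_⟩
    intro E hE
    exact ⟨c, rfl, hcA E hE⟩
  · apply le_csInf
    · exact ⟨_, fin𝓔, Subset.rfl, rfl, fun E hE => ⟨E, hE, by
        rw [sdiff_self]
        exact (bounded_iff_finite _).2 finite_empty⟩⟩
    · rintro κ ⟨C, hC, rfl, h⟩
      obtain ⟨c, hc, -⟩ := h _ diag_mem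
      rw [Cardinal.one_le_iff_ne_zero]
      exact (mk_ne_zero_iff.2 ⟨⟨c, hc⟩⟩)

theorem cofStar_fin : cofStar fin𝓔 = 1 := by
  unfold cofStar
  simp only [cofAstAt_fin]
  exact ciSup_const

theorem aleph0_lt_cofAst_fin : ℵ₀ < cofAst fin𝓔 := by
  have hne : {κ : Cardinal | ∃ C ⊆ fin𝓔, #C = κ ∧
      ∀ E ∈ fin𝓔, ∃ c ∈ C, Bounded (square fin𝓔) (E \ c)}.Nonempty := by
    refine ⟨_, fin𝓔, Subset.rfl, rfl, fun E hE => ⟨E, hE, ?_⟩⟩
    rw [sdiff_self]
    exact ⟨_, ⟨_, diag_mem, _, diag_mem, rfl⟩, (0, 0), empty_subset _⟩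
  by_contra hlt
  rw [not_lt] at hlt
  obtain ⟨C, hC, hCκ, h⟩ := csInf_mem hne
  have hcount : C.Countable := by
    rw [← Cardinal.le_aleph0_iff_set_countable, hCκ]
    exact hlt
  obtain ⟨c₀, hc₀, -⟩ := h _ diag_mem
  obtain ⟨e, he⟩ := hcount.exists_eq_range ⟨c₀, hc₀⟩
  have heC : ∀ i, e i ∈ fin𝓔 := fun i => hC (he ▸ mem_range_self i)
  -- diagonalise
  have hfin : ∀ x : ℕ, (⋃ i ∈ {i : ℕ | i ≤ x}, {y | (x, y) ∈ e i}).Finite := by
    intro x
    refine (finite_le_nat x).biUnion fun i _ => ?_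
    obtain ⟨-, k, hk⟩ := heC i
    exact finite_of_encard_le_coe (hk x).1
  have hbd : ∀ x : ℕ, ∃ b : ℕ, ∀ i ≤ x, ∀ y, (x, y) ∈ e i → y < b := by
    intro x
    obtain ⟨b, hb⟩ := (hfin x).bddAbove
    refine ⟨b + 1, fun i hi y hy => Nat.lt_succ_of_le (hb ?_)⟩
    exact mem_biUnion (show i ∈ {i : ℕ | i ≤ x} from hi) hy
  choose b hb using hbd
  let s : ℕ → ℕ := fun n => ∑ i ∈ Finset.range (n + 1), (b i + 1)
  have hs : StrictMono s := by
    apply strictMono_nat_of_lt_succ
    intro n
    simp only [s]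
    rw [Finset.sum_range_succ _ (n + 1)]
    omega
  have hsb : ∀ n, b n ≤ s n := by
    intro n
    simp only [s]
    rw [Finset.sum_range_succ]
    omega
  let E : Set (ℕ × ℕ) := {p | p.1 = p.2 ∨ p.2 = s p.1}
  have hE : E ∈ fin𝓔 := by
    refine ⟨fun x => Or.inl rfl, 2, ?_⟩
    intro x
    constructor
    · refine (encard_le_encard (t := {x, s x}) ?_).trans pair_le
      rintro z (h | h)
      · left; exact h.symm
      · right; exact h
    · by_cases hx : ∃ y, s y = x
      · obtain ⟨y, rfl⟩ := hx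
        refine (encard_le_encard (t := {s y, y}) ?_).trans pair_le
        rintro z (h | h)
        · left; exact h
        · right
          exact (hs.injective h).symm
      · refine (encard_le_encard (t := {x, x}) ?_).trans pair_le
        rintro z (h | h)
        · left; exact h
        · exact absurd ⟨z, h.symm⟩ hx
  obtain ⟨c, hc, hbdd⟩ := h E hE
  rw [he] at hc
  obtain ⟨i, rfl⟩ := hc
  have hfin2 := bounded_square_finite _ hbdd
  have hsub : (fun x => (x, s x)) '' {x : ℕ | i ≤ x} ⊆ E \ e i := by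
    rintro _ ⟨x, hx, rfl⟩
    refine ⟨Or.inr rfl, fun hmem => ?_⟩
    have h1 := hb x i hx (s x) hmem
    have h2 := hsb x
    omega
  have hinf : ((fun x => (x, s x)) '' {x : ℕ | i ≤ x}).Infinite := by
    apply Set.Infinite.image
    · intro x _ y _ h
      exact congrArg Prod.fst h
    · exact Set.Ici_infinite i
  exact hinf (hfin2.subset hsub)

/-- There is a ballean with `cof_⋆ = 1` and `cof_* > ℵ₀`; in particular
`cof_⋆ < cof_*`. -/
theorem result : ∃ (X : Type) (𝓔 : Set (Set (X × X))), IsBallean 𝓔 ∧ cofStar 𝓔 = 1 ∧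
    ℵ₀ < cofAst 𝓔 ∧ cofStar 𝓔 < cofAst 𝓔 :=
  ⟨ℕ, fin𝓔, isBallean_fin, cofStar_fin, aleph0_lt_cofAst_fin, by
    rw [cofStar_fin]
    exact Cardinal.one_lt_aleph0.trans aleph0_lt_cofAst_fin⟩

end Pool.Agent.Results.MP_fb12c6_gt.Separation
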